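import Mathlib
import Pool.Agent.P8H13.CL.Ad
import Pool.Agent.P8H13.CL.Sv
import Pool.Agent.Y257.HS.TH
import Pool.Agent.Y840.PT.Loc

/-!
# An upper bound sieve for the numbers `Q(y) + ⌊α y⌋` (helper13)
-/

set_option autoImplicit false

namespace Pool.Agent.P8H13.NP

open Finset Filter Topology
open Pool.Agent.Y843.HS (Th qq VV Wt Sv Pr)
open Pool.Agent.P8H13.CL (level card_sets)

theorem lev2 (Q : ℕ → ℕ) (hQ : ∀ d r t : ℕ, Q (r + d * t) ≡ Q r [MOD d]) (N : ℕ) (hN : 1 ≤ N) (α : ℝ) (h : ℤ)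
    (q : ℕ) (hα0 : 0 ≤ α) (hq : 1 ≤ q) (hc : Int.gcd h q = 1) (hα : |α - h / q| ≤ 1 / (q : ℝ) ^ 2)
    (hq1 : (N : ℝ) ^ (1 / 4 : ℝ) ≤ q) (hq2 : (q : ℝ) ≤ (N : ℝ) ^ (3 / 4 : ℝ)) (d : ℕ) (hd1 : 1 ≤ d)
    (hd3 : (d : ℝ) ≤ (N : ℝ) ^ (1 / 8 : ℝ)) :
    |(((Ioc N (2 * N)).filter (fun y : ℕ => d ∣ Q y + ⌊α * y⌋₊)).card : ℝ) - N / d| ≤
      50 * (N : ℝ) ^ (3 / 4 : ℝ) := by
  have hN1 : (1 : ℝ) ≤ N := by exact_mod_cast hN
  have hN0 : (0 : ℝ) < N := by linarith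
  have hq0 : (0 : ℝ) < q := by exact_mod_cast hq
  have h18 : (N : ℝ) ^ (1 / 8 : ℝ) ≤ (N : ℝ) ^ (3 / 4 : ℝ) :=
    Real.rpow_le_rpow_of_exponent_le hN1 (by norm_num)
  have hNq : (N : ℝ) / q ≤ (N : ℝ) ^ (3 / 4 : ℝ) := by
    rw [div_le_iff₀ hq0]
    calc (N : ℝ) = (N : ℝ) ^ (3 / 4 : ℝ) * (N : ℝ) ^ (1 / 4 : ℝ) := by
          rw [← Real.rpow_add hN0]
          norm_num
      _ ≤ (N : ℝ) ^ (3 / 4 : ℝ) * q := mul_le_mul_of_nonneg_left hq1 (by positivity)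
  have h1 := level Q hQ α hα0 h q hq hc hα (2 * N + 1) d hd1
  have h2 := level Q hQ α hα0 h q hq hc hα (N + 1) d hd1
  have h3 : ((range (2 * N + 1)).filter (fun y : ℕ => d ∣ Q y + ⌊α * y⌋₊)).card =
      ((range (N + 1)).filter (fun y : ℕ => d ∣ Q y + ⌊α * y⌋₊)).card +
      ((Ioc N (2 * N)).filter (fun y : ℕ => d ∣ Q y + ⌊α * y⌋₊)).card := by
    rw [← card_union_of_disjoint]
    · congr 1
      ext y
      rw [mem_union, mem_filter, mem_filter, mem_filter, mem_range, mem_range, mem_Ioc]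
      constructor
      · rintro ⟨h4, h5⟩
        by_cases h6 : y < N + 1
        · exact Or.inl ⟨h6, h5⟩
        · exact Or.inr ⟨⟨by omega, by omega⟩, h5⟩
      · rintro (⟨h4, h5⟩ | ⟨⟨h4, h6⟩, h5⟩)
        · exact ⟨by omega, h5⟩
        · exact ⟨by omega, h5⟩
    · rw [disjoint_left]
      intro y h4 h5
      rw [mem_filter, mem_range] at h4
      rw [mem_filter, mem_Ioc] at h5
      omega
  have h4 : (((range (2 * N + 1)).filter (fun y : ℕ => d ∣ Q y + ⌊α * y⌋₊)).card : ℝ) =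
      (((range (N + 1)).filter (fun y : ℕ => d ∣ Q y + ⌊α * y⌋₊)).card : ℝ) +
      (((Ioc N (2 * N)).filter (fun y : ℕ => d ∣ Q y + ⌊α * y⌋₊)).card : ℝ) := by exact_mod_cast h3
  have e : (((Ioc N (2 * N)).filter (fun y : ℕ => d ∣ Q y + ⌊α * y⌋₊)).card : ℝ) - N / d =
      ((((range (2 * N + 1)).filter (fun y : ℕ => d ∣ Q y + ⌊α * y⌋₊)).card : ℝ) - ((2 * N + 1 : ℕ) : ℝ) / d) -
      ((((range (N + 1)).filter (fun y : ℕ => d ∣ Q y + ⌊α * y⌋₊)).card : ℝ) - ((N + 1 : ℕ) : ℝ) / d) := by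
    rw [h4]
    push_cast
    ring
  rw [e]
  refine (abs_sub _ _).trans ?_
  have h5 : ((2 * N + 1 : ℕ) : ℝ) / q ≤ 3 * (N / q) := by
    rw [← mul_div_assoc]
    apply div_le_div_of_nonneg_right _ hq0.le
    push_cast
    linarith
  have h6 : ((N + 1 : ℕ) : ℝ) / q ≤ 2 * (N / q) := by
    rw [← mul_div_assoc]
    apply div_le_div_of_nonneg_right _ hq0.le
    push_cast
    linarith
  have h7 : 12 * (N : ℝ) ^ (1 / 8 : ℝ) ≤ 18 * (N : ℝ) ^ (3 / 4 : ℝ) := by linarith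
  have h8 : 0 ≤ (N : ℝ) / q := by positivity
  linarith

theorem cls (Q : ℕ → ℕ) (hQ : ∀ d r t : ℕ, Q (r + d * t) ≡ Q r [MOD d]) (N : ℕ) (hN : 1 ≤ N) (α : ℝ) (h : ℤ)
    (q : ℕ) (hα0 : 0 ≤ α) (hq : 1 ≤ q) (hc : Int.gcd h q = 1) (hα : |α - h / q| ≤ 1 / (q : ℝ) ^ 2)
    (hq1 : (N : ℝ) ^ (1 / 4 : ℝ) ≤ q) (hq2 : (q : ℝ) ≤ (N : ℝ) ^ (3 / 4 : ℝ)) (d : ℕ) (hd1 : 1 ≤ d)
    (hd3 : (d : ℝ) ≤ (N : ℝ) ^ (1 / 8 : ℝ)) (c : ℕ) (hcd : c < d) :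
    |(((Ioc N (2 * N)).filter (fun y : ℕ => (Q y + ⌊α * y⌋₊) % d = c)).card : ℝ) - N / d| ≤
      50 * (N : ℝ) ^ (3 / 4 : ℝ) := by
  have h1 := lev2 (fun y => Q y + (d - c)) (fun d' r t => (hQ d' r t).add_right _) N hN α h q hα0 hq hc hα
    hq1 hq2 d hd1 hd3
  have h2 : (Ioc N (2 * N)).filter (fun y : ℕ => d ∣ (Q y + (d - c)) + ⌊α * y⌋₊) =
      (Ioc N (2 * N)).filter (fun y : ℕ => (Q y + ⌊α * y⌋₊) % d = c) := by
    apply filter_congr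
    intro y _
    have e1 : (Q y + (d - c)) + ⌊α * y⌋₊ = (Q y + ⌊α * y⌋₊) + (d - c) := by ring
    rw [e1]
    have e2 : c + (d - c) = d := by omega
    constructor
    · intro h3
      have h4 : (Q y + ⌊α * y⌋₊) + (d - c) ≡ c + (d - c) [MOD d] := by
        rw [e2]
        exact ((Nat.modEq_zero_iff_dvd).2 h3).trans ((Nat.modEq_zero_iff_dvd).2 dvd_rfl).symm
      have h5 := Nat.ModEq.add_right_cancel' _ h4
      have h6 : (Q y + ⌊α * y⌋₊) % d = c % d := h5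
      rw [h6, Nat.mod_eq_of_lt hcd]
    · intro h3
      have h4 : (Q y + ⌊α * y⌋₊) ≡ c [MOD d] := by
        show (Q y + ⌊α * y⌋₊) % d = c % d
        rw [h3, Nat.mod_eq_of_lt hcd]
      have h5 := h4.add_right (d - c)
      rw [e2] at h5
      exact (Nat.modEq_zero_iff_dvd).1 (h5.trans ((Nat.modEq_zero_iff_dvd).2 dvd_rfl))
  rw [h2] at h1
  exact h1

/-- residues modulo a product of primes -/
theorem modEq_prod (U : Finset ℕ) (hU : ∀ p ∈ U, p.Prime) (v c : ℕ) :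
    v ≡ c [MOD ∏ p ∈ U, p] ↔ ∀ p ∈ U, v ≡ c [MOD p] := by
  constructor
  · intro h p hp
    exact h.of_dvd (Finset.dvd_prod_of_mem _ hp)
  · intro h
    rcases le_total v c with h1 | h1
    · rw [Nat.modEq_iff_dvd' h1]
      apply Finset.prod_primes_dvd _ (fun p hp => (hU p hp).prime)
      intro p hp
      exact (Nat.modEq_iff_dvd' h1).1 (h p hp)
    · apply Nat.ModEq.symm
      rw [Nat.modEq_iff_dvd' h1]
      apply Finset.prod_primes_dvd _ (fun p hp => (hU p hp).prime)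
      intro p hp
      exact (Nat.modEq_iff_dvd' h1).1 (h p hp).symm

theorem cntU (Q : ℕ → ℕ) (hQ : ∀ d r t : ℕ, Q (r + d * t) ≡ Q r [MOD d]) (N : ℕ) (hN : 1 ≤ N) (α : ℝ) (h : ℤ)
    (q : ℕ) (hα0 : 0 ≤ α) (hq : 1 ≤ q) (hc : Int.gcd h q = 1) (hα : |α - h / q| ≤ 1 / (q : ℝ) ^ 2)
    (hq1 : (N : ℝ) ^ (1 / 4 : ℝ) ≤ q) (hq2 : (q : ℝ) ≤ (N : ℝ) ^ (3 / 4 : ℝ)) (Z : ℕ → Finset ℕ) (U : Finset ℕ)
    (hU : ∀ p ∈ U, p.Prime) (hZ : ∀ p ∈ U, ∀ c ∈ Z p, c < p)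
    (hd3 : ((∏ p ∈ U, p : ℕ) : ℝ) ≤ (N : ℝ) ^ (1 / 8 : ℝ)) :
    |(((Ioc N (2 * N)).filter (fun y : ℕ => ∀ p ∈ U, (Q y + ⌊α * y⌋₊) % p ∈ Z p)).card : ℝ) -
      N * ∏ p ∈ U, (((Z p).card : ℝ) / p)| ≤ (∏ p ∈ U, ((Z p).card : ℝ)) * (50 * (N : ℝ) ^ (3 / 4 : ℝ)) := by
  classical
  obtain ⟨d, hd⟩ : ∃ d : ℕ, d = ∏ p ∈ U, p := ⟨_, rfl⟩
  have hd1 : 1 ≤ d := by
    rw [hd]
    exact Nat.one_le_iff_ne_zero.2 (Finset.prod_ne_zero_iff.2 fun p hp => (hU p hp).ne_zero)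
  have hd0 : (0 : ℝ) < d := by exact_mod_cast hd1
  rw [← hd] at hd3
  -- the classes
  have hcrt : ∀ f : (p : ℕ) → p ∈ U → ℕ, ∃ c : ℕ, c < d ∧ ∀ p (hp : p ∈ U), c ≡ f p hp [MOD p] := by
    intro f
    have h1 := Nat.chineseRemainderOfFinset (fun p => if hp : p ∈ U then f p hp else 0) (fun p => p) U
      (fun p hp => (hU p hp).ne_zero)
      (fun p hp p' hp' hne => (Nat.coprime_primes (hU p hp) (hU p' hp')).2 hne)
    obtain ⟨k, hk⟩ := h1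
    refine ⟨k % d, Nat.mod_lt _ (by omega), fun p hp => ?_⟩
    have h2 := hk p hp
    rw [dif_pos hp] at h2
    have h3 : k % d ≡ k [MOD p] := by
      have h4 : k % d ≡ k [MOD d] := Nat.mod_modEq _ _
      exact h4.of_dvd (by rw [hd]; exact Finset.dvd_prod_of_mem _ hp)
    exact h3.trans h2
  choose cf hcf1 hcf2 using hcrt
  obtain ⟨S, hS⟩ : ∃ S : Finset ℕ, S = (Ioc N (2 * N)).filter (fun y : ℕ => ∀ p ∈ U, (Q y + ⌊α * y⌋₊) % p ∈ Z p) :=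
    ⟨_, rfl⟩
  rw [← hS]
  have hfib : S.card = ∑ f ∈ U.pi Z, ((Ioc N (2 * N)).filter (fun y : ℕ => (Q y + ⌊α * y⌋₊) % d = cf f)).card := by
    rw [card_eq_sum_card_fiberwise (f := fun y : ℕ => (fun (p : ℕ) (_ : p ∈ U) => (Q y + ⌊α * y⌋₊) % p))
      (t := U.pi Z) (by
        intro y hy
        rw [Finset.mem_coe, hS, mem_filter] at hy
        rw [Finset.mem_coe, Finset.mem_pi]
        exact hy.2)]
    apply sum_congr rfl
    intro f hf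
    rw [Finset.mem_pi] at hf
    congr 1
    ext y
    rw [mem_filter, hS, mem_filter, mem_filter]
    constructor
    · rintro ⟨⟨h1, h2⟩, h3⟩
      refine ⟨h1, ?_⟩
      have h4 : Q y + ⌊α * y⌋₊ ≡ cf f [MOD d] := by
        rw [hd, modEq_prod U hU]
        intro p hp
        have h5 : (Q y + ⌊α * y⌋₊) % p = f p hp := congrFun (congrFun h3 p) hp
        have h6 : Q y + ⌊α * y⌋₊ ≡ f p hp [MOD p] := by
          show _ % p = _ % p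
          rw [h5, Nat.mod_eq_of_lt (hZ p hp _ (hf p hp))]
        exact h6.trans (hcf2 f p hp).symm
      have h5 : (Q y + ⌊α * y⌋₊) % d = cf f % d := h4
      rw [h5, Nat.mod_eq_of_lt (hcf1 f)]
    · rintro ⟨h1, h2⟩
      have h4 : Q y + ⌊α * y⌋₊ ≡ cf f [MOD d] := by
        show _ % d = _ % d
        rw [h2, Nat.mod_eq_of_lt (hcf1 f)]
      rw [hd, modEq_prod U hU] at h4
      have h5 : ∀ p (hp : p ∈ U), (Q y + ⌊α * y⌋₊) % p = f p hp := by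
        intro p hp
        have h6 : (Q y + ⌊α * y⌋₊) % p = f p hp % p := (h4 p hp).trans (hcf2 f p hp)
        rw [h6, Nat.mod_eq_of_lt (hZ p hp _ (hf p hp))]
      refine ⟨⟨h1, fun p hp => ?_⟩, ?_⟩
      · rw [h5 p hp]
        exact hf p hp
      · funext p hp
        exact h5 p hp
  have hmain : (N : ℝ) * ∏ p ∈ U, (((Z p).card : ℝ) / p) = ∑ _f ∈ U.pi Z, (N : ℝ) / d := by
    rw [sum_const, Finset.card_pi, nsmul_eq_mul, prod_div_distrib, hd]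
    push_cast
    ring
  rw [hmain, hfib]
  push_cast
  rw [← sum_sub_distrib]
  refine (abs_sum_le_sum_abs _ _).trans ?_
  have h1 : ∀ f ∈ U.pi Z, |(((Ioc N (2 * N)).filter (fun y : ℕ => (Q y + ⌊α * y⌋₊) % d = cf f)).card : ℝ) - N / d| ≤
      50 * (N : ℝ) ^ (3 / 4 : ℝ) := fun f _ =>
    cls Q hQ N hN α h q hα0 hq hc hα hq1 hq2 d hd1 hd3 (cf f) (hcf1 f)
  refine (sum_le_sum h1).trans ?_
  rw [sum_const, Finset.card_pi, nsmul_eq_mul]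
  push_cast
  exact le_rfl

end Pool.Agent.P8H13.NP
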