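import Mathlib
import Pool.Agent.P8H13.NP.Sv2

/-!
# An upper bound sieve for the numbers `Q(y) + ⌊α y⌋`: the sieve (helper13)
-/

set_option autoImplicit false

namespace Pool.Agent.P8H13.NP

open Finset Filter Topology
open Pool.Agent.Y843.HS (Th qq VV Wt Sv Pr)
open Pool.Agent.P8H13.CL (level card_sets)

/-- **upper bound sieve** -/
theorem sift (r : ℕ) : ∃ C A : ℝ, 0 < C ∧ 0 < A ∧ ∃ z N₀ : ℕ, 1 ≤ z ∧ ∀ N : ℕ, N₀ ≤ N → ∃ R : ℕ, z ≤ R ∧ 2 ≤ R ∧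
    R < N ∧ Real.log N / A ≤ Real.log R ∧ ∀ Z : ℕ → Finset ℕ, Sv r z R Z → ∀ Q : ℕ → ℕ,
    (∀ d r t : ℕ, Q (r + d * t) ≡ Q r [MOD d]) →
    ∀ (α : ℝ) (h : ℤ) (q : ℕ), 0 ≤ α → 1 ≤ q → Int.gcd h q = 1 → |α - h / q| ≤ 1 / (q : ℝ) ^ 2 →
      (N : ℝ) ^ (1 / 4 : ℝ) ≤ q → (q : ℝ) ≤ (N : ℝ) ^ (3 / 4 : ℝ) →
      (((Ioc N (2 * N)).filter (fun y : ℕ => ∀ p ∈ Pr z R, (Q y + ⌊α * y⌋₊) % p ∉ Z p)).card : ℝ) ≤
        C * (N * VV Z z R) + 50 * (N : ℝ) ^ (7 / 8 : ℝ) := by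
  classical
  obtain ⟨C₀, hC₀, hTH⟩ := Pool.Agent.Y257.HS.s_TH r
  have hC₀r : (1 : ℝ) ≤ C₀ := by exact_mod_cast hC₀
  obtain ⟨z, hz⟩ : ∃ z : ℕ, z = 2 ^ 2 ^ C₀ := ⟨_, rfl⟩
  have hz1 : 1 ≤ z := by
    rw [hz]
    exact Nat.one_le_pow _ _ (by norm_num)
  -- largeness
  have hp16 : Tendsto (fun N : ℕ => (N : ℝ) ^ (1 / (32 * C₀ : ℝ))) atTop atTop :=
    (tendsto_rpow_atTop (by positivity)).comp tendsto_natCast_atTop_atTop
  obtain ⟨N₁, hN₁⟩ := eventually_atTop.1 (hp16.eventually_ge_atTop ((z : ℝ) + 2))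
  refine ⟨C₀, 32 * C₀, by positivity, by positivity, z, N₁ + 3, hz1, fun N hN => ?_⟩
  have b1 := hN₁ N (by omega)
  have hN0 : (0 : ℝ) < N := by exact_mod_cast (by omega : 0 < N)
  have hN1 : (1 : ℝ) ≤ N := by exact_mod_cast (by omega : 1 ≤ N)
  have hN2 : (2 : ℝ) ≤ N := by exact_mod_cast (by omega : 2 ≤ N)
  have hlogN : 0 < Real.log N := Real.log_pos (by linarith)
  -- the level
  obtain ⟨w, hw⟩ : ∃ w : ℝ, w = (N : ℝ) ^ (1 / (16 * C₀ : ℝ)) := ⟨_, rfl⟩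
  have hw2 : w = (N : ℝ) ^ (1 / (32 * C₀ : ℝ)) * (N : ℝ) ^ (1 / (32 * C₀ : ℝ)) := by
    rw [hw, ← Real.rpow_add hN0]
    congr 1
    field_simp
    norm_num
  have hz0 : (0 : ℝ) ≤ z := Nat.cast_nonneg z
  have hwz : (z : ℝ) + 2 ≤ w := by
    rw [hw2]
    nlinarith
  -- the largest `J` with `2 ^ 2 ^ J ≤ w`
  have hexJ : ∃ J : ℕ, C₀ ≤ J ∧ ((2 ^ 2 ^ J : ℕ) : ℝ) ≤ w ∧ w < ((2 ^ 2 ^ (J + 1) : ℕ) : ℝ) := by
    have hub : ∃ J : ℕ, w < ((2 ^ 2 ^ J : ℕ) : ℝ) := by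
      obtain ⟨n, hn⟩ := exists_nat_gt w
      refine ⟨n, lt_of_lt_of_le hn ?_⟩
      have h1 : n ≤ 2 ^ 2 ^ n := (Nat.lt_pow_self (by norm_num : 1 < 2)).le.trans
        ((Nat.lt_pow_self (by norm_num : 1 < 2)).le)
      exact_mod_cast h1
    obtain ⟨J', hJ', hmin⟩ : ∃ J', (w < ((2 ^ 2 ^ J' : ℕ) : ℝ)) ∧ ∀ j < J', ¬ (w < ((2 ^ 2 ^ j : ℕ) : ℝ)) :=
      ⟨Nat.find hub, Nat.find_spec hub, fun j hj => Nat.find_min hub hj⟩
    have h1 : C₀ < J' := by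
      by_contra h2
      push Not at h2
      have h3 : (2 ^ 2 ^ J' : ℕ) ≤ 2 ^ 2 ^ C₀ :=
        Nat.pow_le_pow_right (by norm_num) (Nat.pow_le_pow_right (by norm_num) h2)
      have h4 : ((2 ^ 2 ^ J' : ℕ) : ℝ) ≤ z := by
        rw [hz]
        exact_mod_cast h3
      linarith
    refine ⟨J' - 1, by omega, ?_, ?_⟩
    · exact not_lt.1 (hmin (J' - 1) (by omega))
    · rw [Nat.sub_add_cancel (by omega)]
      exact hJ'
  obtain ⟨J, hJ1, hJ2, hJ3⟩ := hexJ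
  obtain ⟨R, hR⟩ : ∃ R : ℕ, R = 2 ^ 2 ^ J := ⟨_, rfl⟩
  rw [← hR] at hJ2
  have hR2 : 2 ≤ R := by
    rw [hR]
    calc 2 = 2 ^ 1 := by norm_num
      _ ≤ 2 ^ 2 ^ J := Nat.pow_le_pow_right (by norm_num) (Nat.one_le_pow _ _ (by norm_num))
  have hR0 : (0 : ℝ) < R := by exact_mod_cast (by omega : 0 < R)
  have hwR : w < (R : ℝ) ^ 2 := by
    have e : ((2 ^ 2 ^ (J + 1) : ℕ) : ℝ) = (R : ℝ) ^ 2 := by
      rw [hR]
      push_cast
      rw [← pow_mul, pow_succ]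
    rw [← e]
    exact hJ3
  have hw0 : 0 < w := by linarith
  have hlogR : Real.log N / (32 * C₀) ≤ Real.log R := by
    have h1 := Real.log_le_log hw0 hwR.le
    rw [Real.log_pow, hw, Real.log_rpow hN0] at h1
    push_cast at h1
    have e : Real.log N / (32 * C₀) = (1 / (16 * C₀ : ℝ) * Real.log N) / 2 := by
      field_simp
      norm_num
    rw [e]
    linarith
  have hRC : ((R ^ C₀ : ℕ) : ℝ) ≤ (N : ℝ) ^ (1 / 16 : ℝ) := by
    push_cast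
    calc (R : ℝ) ^ C₀ ≤ w ^ C₀ := pow_le_pow_left₀ hR0.le hJ2 _
      _ = (N : ℝ) ^ (1 / 16 : ℝ) := by
          rw [hw, ← Real.rpow_natCast, ← Real.rpow_mul hN0.le]
          congr 1
          field_simp
  have hzR : z ≤ R := by
    rw [hz, hR]
    exact Nat.pow_le_pow_right (by norm_num) (Nat.pow_le_pow_right (by norm_num) hJ1)
  have hRN : R < N := by
    have h1 : (R : ℝ) ≤ ((R ^ C₀ : ℕ) : ℝ) := by
      have : R ≤ R ^ C₀ := Nat.le_self_pow (by omega) R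
      exact_mod_cast this
    have h2 : (N : ℝ) ^ (1 / 16 : ℝ) < (N : ℝ) ^ (1 : ℝ) :=
      Real.rpow_lt_rpow_of_exponent_lt (by linarith) (by norm_num)
    rw [Real.rpow_one] at h2
    have h3 : (R : ℝ) < N := lt_of_le_of_lt (h1.trans hRC) h2
    exact_mod_cast h3
  refine ⟨R, hzR, hR2, hRN, hlogR, fun Z hZ Q hQ α h q hα0 hq hc hα hq1 hq2 => ?_⟩
  obtain ⟨θ, hθ⟩ := hTH C₀ J le_rfl hJ1 Z (by
    rw [← hz, ← hR]
    exact hZ)
  rw [← hz, ← hR] at hθ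
  have hPrp : ∀ p ∈ Pr z R, p.Prime := by
    intro p hp
    unfold Pr at hp
    exact (mem_filter.1 hp).2
  -- the sum of the weights
  have hle : (((Ioc N (2 * N)).filter (fun y : ℕ => ∀ p ∈ Pr z R, (Q y + ⌊α * y⌋₊) % p ∉ Z p)).card : ℝ) ≤
      ∑ y ∈ Ioc N (2 * N), Th Z z R θ (Q y + ⌊α * y⌋₊) := by
    rw [card_filter]
    push_cast
    apply sum_le_sum
    intro y hy
    split_ifs with hp
    · have h2 : (Pr z R).powerset.filter (fun U => ∀ p ∈ U, (Q y + ⌊α * y⌋₊) % p ∈ Z p) = {∅} := by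
        ext U
        rw [mem_filter, mem_powerset, Finset.mem_singleton]
        constructor
        · rintro ⟨h3, h4⟩
          by_contra hne
          obtain ⟨p, hp1⟩ := Finset.nonempty_iff_ne_empty.2 hne
          exact hp p (h3 hp1) (h4 p hp1)
        · rintro rfl
          exact ⟨empty_subset _, fun p hp => absurd hp (Finset.notMem_empty p)⟩
      unfold Th
      rw [h2, sum_singleton, hθ.one]
    · exact hθ.nonneg _
  refine hle.trans ?_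
  -- exchange
  have hex : ∑ y ∈ Ioc N (2 * N), Th Z z R θ (Q y + ⌊α * y⌋₊) =
      ∑ U ∈ (Pr z R).powerset, θ U *
        (((Ioc N (2 * N)).filter (fun y : ℕ => ∀ p ∈ U, (Q y + ⌊α * y⌋₊) % p ∈ Z p)).card : ℝ) := by
    unfold Th
    simp only [sum_filter]
    rw [sum_comm]
    apply sum_congr rfl
    intro U hU
    rw [card_filter]
    push_cast
    rw [mul_sum]
    apply sum_congr rfl
    intro y _
    by_cases h3 : ∀ p ∈ U, (Q y + ⌊α * y⌋₊) % p ∈ Z p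
    · rw [if_pos h3, if_pos h3, mul_one]
    · rw [if_neg h3, if_neg h3, mul_zero]
  rw [hex]
  -- the error terms
  obtain ⟨E, hE⟩ : ∃ E : ℝ, E = 50 * (N : ℝ) ^ (3 / 4 : ℝ) := ⟨_, rfl⟩
  have hE0 : 0 ≤ E := by rw [hE]; positivity
  have h116 : (N : ℝ) ^ (1 / 16 : ℝ) ≤ (N : ℝ) ^ (1 / 8 : ℝ) :=
    Real.rpow_le_rpow_of_exponent_le hN1 (by norm_num)
  have hsum : ∀ U ∈ (Pr z R).powerset, θ U *
      (((Ioc N (2 * N)).filter (fun y : ℕ => ∀ p ∈ U, (Q y + ⌊α * y⌋₊) % p ∈ Z p)).card : ℝ) ≤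
      N * (θ U * ∏ p ∈ U, (((Z p).card : ℝ) / p)) +
        (if ∏ p ∈ U, p ≤ R ^ C₀ then (N : ℝ) ^ (1 / 16 : ℝ) * E else 0) := by
    intro U hU
    rw [mem_powerset] at hU
    by_cases h1 : θ U = 0
    · rw [h1]
      split_ifs
      · simp only [zero_mul, mul_zero, zero_add]
        positivity
      · simp
    · have h2 := hθ.lev U hU h1
      rw [if_pos h2]
      have h3 : ((∏ p ∈ U, p : ℕ) : ℝ) ≤ (N : ℝ) ^ (1 / 16 : ℝ) := le_trans (by exact_mod_cast h2) hRC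
      have h4 := cntU Q hQ N (by omega) α h q hα0 hq hc hα hq1 hq2 Z U (fun p hp => hPrp p (hU hp))
        (fun p hp => (hZ p (hU hp)).2) (h3.trans h116)
      rw [← hE] at h4
      have h6 : (∏ p ∈ U, ((Z p).card : ℝ)) ≤ (N : ℝ) ^ (1 / 16 : ℝ) := by
        refine le_trans ?_ h3
        push_cast
        apply prod_le_prod (fun p _ => Nat.cast_nonneg _)
        intro p hp
        have h7 : (Z p).card ≤ (range p).card := by
          apply card_le_card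
          intro c hc
          exact mem_range.2 ((hZ p (hU hp)).2 c hc)
        rw [card_range] at h7
        exact_mod_cast h7
      have h5 : θ U * ((((Ioc N (2 * N)).filter (fun y : ℕ => ∀ p ∈ U, (Q y + ⌊α * y⌋₊) % p ∈ Z p)).card : ℝ) -
          N * ∏ p ∈ U, (((Z p).card : ℝ) / p)) ≤ (N : ℝ) ^ (1 / 16 : ℝ) * E := by
        refine (le_abs_self _).trans ?_
        rw [abs_mul]
        calc |θ U| * _ ≤ 1 * ((N : ℝ) ^ (1 / 16 : ℝ) * E) :=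
              mul_le_mul (hθ.abs U) (h4.trans (mul_le_mul_of_nonneg_right h6 hE0)) (abs_nonneg _) zero_le_one
          _ = _ := one_mul _
      linarith
  refine (sum_le_sum hsum).trans ?_
  rw [sum_add_distrib, ← mul_sum, ← sum_filter, sum_const, nsmul_eq_mul]
  have h1 : (N : ℝ) * ∑ U ∈ (Pr z R).powerset, θ U * ∏ p ∈ U, (((Z p).card : ℝ) / p) ≤
      C₀ * (N * VV Z z R) := by
    have h2 : (N : ℝ) * qq Z z R θ ≤ N * (C₀ * VV Z z R) := mul_le_mul_of_nonneg_left hθ.hi hN0.le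
    refine h2.trans (le_of_eq ?_)
    ring
  have h2 : ((((Pr z R).powerset).filter (fun U => ∏ p ∈ U, p ≤ R ^ C₀)).card : ℝ) ≤ (N : ℝ) ^ (1 / 16 : ℝ) :=
    le_trans (by exact_mod_cast card_sets z R (R ^ C₀)) hRC
  have h3 : ((((Pr z R).powerset).filter (fun U => ∏ p ∈ U, p ≤ R ^ C₀)).card : ℝ) *
      ((N : ℝ) ^ (1 / 16 : ℝ) * E) ≤ 50 * (N : ℝ) ^ (7 / 8 : ℝ) := by
    calc _ ≤ (N : ℝ) ^ (1 / 16 : ℝ) * ((N : ℝ) ^ (1 / 16 : ℝ) * E) := mul_le_mul_of_nonneg_right h2 (by positivity)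
      _ = 50 * (N : ℝ) ^ (7 / 8 : ℝ) := by
          rw [hE]
          have : (N : ℝ) ^ (7 / 8 : ℝ) = (N : ℝ) ^ (1 / 16 : ℝ) * ((N : ℝ) ^ (1 / 16 : ℝ) * (N : ℝ) ^ (3 / 4 : ℝ)) := by
            rw [← Real.rpow_add hN0, ← Real.rpow_add hN0]
            norm_num
          rw [this]
          ring
  exact add_le_add h1 h3

end Pool.Agent.P8H13.NP
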