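import Mathlib
import Pool.Agent.P8H13.NP.Sv3
import Pool.Agent.N837.LP.Tot

/-!
# Pairs of primes `Q(y) + ⌊α y⌋ + j`, `Q(y) + ⌊α y⌋ + j'` (helper13)
-/

set_option autoImplicit false

namespace Pool.Agent.P8H13.NP

open Finset Filter Topology
open Pool.Agent.Y843.HS (Th qq VV Wt Sv Pr)

theorem mert2 (z : ℕ) : ∃ c : ℝ, 0 < c ∧ ∀ R : ℕ, 2 ≤ R → z ≤ R →
    ∏ p ∈ Pr z R, (1 - 1 / (p : ℝ)) ≤ c / Real.log R := by
  classical
  obtain ⟨C₁, hC₁, hm⟩ := Pool.Agent.Y840.PT.mert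
  obtain ⟨cz, hcz⟩ : ∃ cz : ℝ, cz = ∏ p ∈ Pool.Agent.Y840.PT.P0 z, (1 - 1 / (p : ℝ)) := ⟨_, rfl⟩
  have hfac : ∀ p : ℕ, p.Prime → 0 < 1 - 1 / (p : ℝ) := by
    intro p hp
    have h2 : (2 : ℝ) ≤ p := by exact_mod_cast hp.two_le
    rw [sub_pos, div_lt_one (by linarith)]
    linarith
  have hcz0 : 0 < cz := by
    rw [hcz]
    apply prod_pos
    intro p hp
    unfold Pool.Agent.Y840.PT.P0 at hp
    exact hfac p (mem_filter.1 hp).2
  refine ⟨C₁ / cz, by positivity, fun R hR2 hzR => ?_⟩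
  have h1 : Pool.Agent.Y840.PT.P0 R = Pool.Agent.Y840.PT.P0 z ∪ Pr z R := by
    ext p
    unfold Pool.Agent.Y840.PT.P0 Pr
    rw [mem_union, mem_filter, mem_filter, mem_filter, mem_Ioc, mem_Ioc, mem_Ioc]
    constructor
    · rintro ⟨⟨h2, h3⟩, h4⟩
      by_cases h5 : p ≤ z
      · exact Or.inl ⟨⟨h2, h5⟩, h4⟩
      · exact Or.inr ⟨⟨by omega, h3⟩, h4⟩
    · rintro (⟨⟨h2, h3⟩, h4⟩ | ⟨⟨h2, h3⟩, h4⟩)
      · exact ⟨⟨h2, h3.trans hzR⟩, h4⟩
      · exact ⟨⟨by omega, h3⟩, h4⟩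
  have h2 : Disjoint (Pool.Agent.Y840.PT.P0 z) (Pr z R) := by
    rw [disjoint_left]
    intro p h3 h4
    unfold Pool.Agent.Y840.PT.P0 at h3
    unfold Pr at h4
    rw [mem_filter, mem_Ioc] at h3 h4
    omega
  have h3 := hm R hR2
  rw [h1, prod_union h2, ← hcz] at h3
  have e : C₁ / cz / Real.log R = C₁ / Real.log R / cz := by ring
  rw [e, le_div_iff₀ hcz0]
  linarith

/-- the two classes -/
def Zp (j j' : ℕ) (p : ℕ) : Finset ℕ := {(p - j % p) % p, (p - j' % p) % p}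

theorem dvd_of_cls (p : ℕ) (hp : 0 < p) (v j : ℕ) (h : v % p = (p - j % p) % p) : p ∣ v + j := by
  have h1 : v ≡ p - j % p [MOD p] := h
  have h2 : v + j % p ≡ (p - j % p) + j % p [MOD p] := h1.add_right _
  have h3 : (p - j % p) + j % p = p := Nat.sub_add_cancel (Nat.mod_lt j hp).le
  rw [h3] at h2
  have h4 : v + j ≡ v + j % p [MOD p] := (Nat.mod_modEq j p).symm.add_left v
  have h5 : v + j ≡ 0 [MOD p] := (h4.trans h2).trans ((Nat.modEq_zero_iff_dvd).2 dvd_rfl)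
  exact (Nat.modEq_zero_iff_dvd).1 h5

theorem sub_mod_inj (p : ℕ) (hp : 0 < p) (j j' : ℕ) (h : (p - j % p) % p = (p - j' % p) % p) :
    j ≡ j' [MOD p] := by
  have h1 : p - j % p ≡ p - j' % p [MOD p] := h
  have h3 : (p - j % p) + j % p = p := Nat.sub_add_cancel (Nat.mod_lt j hp).le
  have h4 : (p - j' % p) + j' % p = p := Nat.sub_add_cancel (Nat.mod_lt j' hp).le
  have h5 : (p - j % p) + j' % p ≡ (p - j % p) + j % p [MOD p] := by
    rw [h3]
    have h6 := h1.add_right (j' % p)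
    rw [h4] at h6
    exact h6
  have h7 := Nat.ModEq.add_left_cancel' _ h5
  have h8 : j' % p % p = j % p % p := h7
  rw [Nat.mod_mod, Nat.mod_mod] at h8
  exact h8.symm

theorem VV_le (z R : ℕ) (j j' : ℕ) (hj : j < j') :
    VV (Zp j j') z R ≤ (∏ p ∈ Pr z R, (1 - 1 / (p : ℝ))) ^ 2 * (((j' - j : ℕ) : ℝ) / (j' - j).totient) := by
  classical
  obtain ⟨h, hh⟩ : ∃ h : ℕ, h = j' - j := ⟨_, rfl⟩
  have hh0 : 0 < h := by omega
  rw [← hh]
  have hPrp : ∀ p ∈ Pr z R, p.Prime := by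
    intro p hp
    unfold Pr at hp
    exact (mem_filter.1 hp).2
  obtain ⟨g, hg⟩ : ∃ g : ℕ → ℝ, g = fun p => if p ∣ h then (1 - 1 / (p : ℝ))⁻¹ else 1 := ⟨_, rfl⟩
  have hone : ∀ p : ℕ, p.Prime → 0 < 1 - 1 / (p : ℝ) := by
    intro p hp
    have h2 : (2 : ℝ) ≤ p := by exact_mod_cast hp.two_le
    rw [sub_pos, div_lt_one (by linarith)]
    linarith
  have hinv : ∀ p : ℕ, p.Prime → 1 ≤ (1 - 1 / (p : ℝ))⁻¹ := by
    intro p hp
    rw [one_le_inv₀ (hone p hp)]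
    have : (0 : ℝ) ≤ 1 / (p : ℝ) := by positivity
    linarith
  have h1 : VV (Zp j j') z R ≤ ∏ p ∈ Pr z R, ((1 - 1 / (p : ℝ)) ^ 2 * g p) := by
    unfold VV
    apply Finset.prod_le_prod
    · intro p hp
      have hp2 : (2 : ℝ) ≤ p := by exact_mod_cast (hPrp p hp).two_le
      have h2 : ((Zp j j' p).card : ℝ) ≤ 2 := by
        unfold Zp
        exact_mod_cast card_le_two
      rw [sub_nonneg, div_le_one (by linarith)]
      linarith
    · intro p hp
      have hpp := hPrp p hp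
      have hp2 : (2 : ℝ) ≤ p := by exact_mod_cast hpp.two_le
      have hp0 : (0 : ℝ) < p := by linarith
      rw [hg]
      simp only
      by_cases hd : p ∣ h
      · rw [if_pos hd]
        have h2 : (1 : ℝ) ≤ ((Zp j j' p).card : ℝ) := by
          have : 0 < (Zp j j' p).card := card_pos.2 (by unfold Zp; exact insert_nonempty _ _)
          exact_mod_cast this
        have h3 : (1 - 1 / (p : ℝ)) ^ 2 * (1 - 1 / (p : ℝ))⁻¹ = 1 - 1 / (p : ℝ) := by
          have := (hone p hpp).ne'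
          field_simp
        rw [h3]
        have h4 : 1 / (p : ℝ) ≤ ((Zp j j' p).card : ℝ) / p := div_le_div_of_nonneg_right h2 hp0.le
        linarith
      · rw [if_neg hd, mul_one]
        have h2 : (Zp j j' p).card = 2 := by
          unfold Zp
          apply card_pair
          intro h3
          apply hd
          have h4 := sub_mod_inj p hpp.pos j j' h3
          rw [hh]
          exact (Nat.modEq_iff_dvd' hj.le).1 h4
        rw [h2]
        have h3 : (1 - 1 / (p : ℝ)) ^ 2 = 1 - 2 / p + (1 / p) ^ 2 := by ring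
        rw [h3]
        push_cast
        have : (0 : ℝ) ≤ (1 / (p : ℝ)) ^ 2 := by positivity
        linarith
  refine h1.trans ?_
  rw [prod_mul_distrib, prod_pow]
  apply mul_le_mul_of_nonneg_left _ (by positivity)
  -- the product of `g`
  have h2 : ∏ p ∈ Pr z R, g p = ∏ p ∈ (Pr z R).filter (fun p => p ∣ h), (1 - 1 / (p : ℝ))⁻¹ := by
    rw [hg, prod_filter]
  have h3 : (Pr z R).filter (fun p => p ∣ h) ⊆ h.primeFactors := by
    intro p hp
    rw [mem_filter] at hp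
    rw [Nat.mem_primeFactors]
    exact ⟨hPrp p hp.1, hp.2, by omega⟩
  have h4 : ∏ p ∈ (Pr z R).filter (fun p => p ∣ h), (1 - 1 / (p : ℝ))⁻¹ ≤
      ∏ p ∈ h.primeFactors, (1 - 1 / (p : ℝ))⁻¹ := by
    apply prod_le_prod_of_subset_of_one_le h3
    · intro p hp
      rw [mem_filter] at hp
      exact (inv_pos.2 (hone p (hPrp p hp.1))).le
    · intro p hp _
      exact hinv p (Nat.prime_of_mem_primeFactors hp)
  have h5 : ∏ p ∈ h.primeFactors, (1 - 1 / (p : ℝ))⁻¹ = (h : ℝ) / h.totient := by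
    have h6 : ((h.totient : ℕ) : ℝ) = h * ∏ p ∈ h.primeFactors, (1 - 1 / (p : ℝ)) := by
      have h7 := Nat.totient_eq_mul_prod_factors h
      have h8 : (((h.totient : ℕ) : ℚ) : ℝ) = (((h : ℚ) * ∏ p ∈ h.primeFactors, (1 - (p : ℚ)⁻¹) : ℚ) : ℝ) := by
        rw [h7]
      push_cast at h8
      rw [h8]
      simp only [one_div]
    have h7 : ∏ p ∈ h.primeFactors, (1 - 1 / (p : ℝ)) ≠ 0 := by
      apply Finset.prod_ne_zero_iff.2
      intro p hp
      exact (hone p (Nat.prime_of_mem_primeFactors hp)).ne'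
    have h8 : (h : ℝ) ≠ 0 := by positivity
    rw [h6, prod_inv_distrib]
    field_simp
  rw [h2, ← h5]
  exact h4

/-- **pairs** -/
theorem pair : ∃ C : ℝ, 0 < C ∧ ∃ N₀ : ℕ, ∀ N : ℕ, N₀ ≤ N → ∀ Q : ℕ → ℕ,
    (∀ d r t : ℕ, Q (r + d * t) ≡ Q r [MOD d]) → (∀ y : ℕ, N < y → N ≤ Q y) →
    ∀ (α : ℝ) (h : ℤ) (q : ℕ), 0 ≤ α → 1 ≤ q → Int.gcd h q = 1 → |α - h / q| ≤ 1 / (q : ℝ) ^ 2 →
      (N : ℝ) ^ (1 / 4 : ℝ) ≤ q → (q : ℝ) ≤ (N : ℝ) ^ (3 / 4 : ℝ) → ∀ j j' : ℕ, j < j' →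
      (((Ioc N (2 * N)).filter (fun y : ℕ => (Q y + ⌊α * y⌋₊ + j).Prime ∧ (Q y + ⌊α * y⌋₊ + j').Prime)).card : ℝ) ≤
        C * (((j' - j : ℕ) : ℝ) / (j' - j).totient) * (N / Real.log N ^ 2) := by
  classical
  obtain ⟨C, A, hC, hA, z, N₁, hz, hs⟩ := sift 2
  obtain ⟨c, hc, hm⟩ := mert2 z
  have hlp : ∀ᶠ N : ℕ in atTop, 50 * Real.log N ^ 2 ≤ (N : ℝ) ^ (1 / 8 : ℝ) := by
    have h1 : (fun x : ℝ => Real.log x) =o[atTop] (fun x : ℝ => x ^ (1 / 16 : ℝ)) :=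
      isLittleO_log_rpow_atTop (by norm_num)
    have h2 := h1.bound (show (0 : ℝ) < 1 / 8 by norm_num)
    have h3 := tendsto_natCast_atTop_atTop.eventually h2
    filter_upwards [h3, eventually_ge_atTop 1] with N hN hN1
    have hN1' : (1 : ℝ) ≤ N := by exact_mod_cast hN1
    have hl : 0 ≤ Real.log N := Real.log_nonneg hN1'
    rw [Real.norm_of_nonneg hl, Real.norm_of_nonneg (Real.rpow_nonneg (by linarith) _)] at hN
    have h4 : (N : ℝ) ^ (1 / 8 : ℝ) = ((N : ℝ) ^ (1 / 16 : ℝ)) ^ 2 := by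
      rw [← Real.rpow_natCast, ← Real.rpow_mul (by linarith)]
      norm_num
    rw [h4]
    have h5 : Real.log N ^ 2 ≤ (1 / 8 * (N : ℝ) ^ (1 / 16 : ℝ)) ^ 2 := pow_le_pow_left₀ hl hN 2
    have h6 : (1 / 8 * (N : ℝ) ^ (1 / 16 : ℝ)) ^ 2 = 1 / 64 * ((N : ℝ) ^ (1 / 16 : ℝ)) ^ 2 := by ring
    rw [h6] at h5
    have h7 : 0 ≤ ((N : ℝ) ^ (1 / 16 : ℝ)) ^ 2 := by positivity
    linarith
  obtain ⟨N₂, hN₂⟩ := eventually_atTop.1 hlp
  refine ⟨C * (c * A) ^ 2 + 1, by positivity, N₁ + N₂ + 3, fun N hN Q hQ hQN α h q hα0 hq hc' hα hq1 hq2 j j' hj => ?_⟩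
  have b2 := hN₂ N (by omega)
  have hN3 : (3 : ℝ) ≤ N := by exact_mod_cast (by omega : 3 ≤ N)
  have hN0 : (0 : ℝ) < N := by linarith
  have hlN : 0 < Real.log N := Real.log_pos (by linarith)
  obtain ⟨R, hzR, hR2, hRN, hlR, hsv⟩ := hs N (by omega)
  have hPrp : ∀ p ∈ Pr z R, p.Prime ∧ p ≤ R := by
    intro p hp
    unfold Pr at hp
    rw [mem_filter, mem_Ioc] at hp
    exact ⟨hp.2, hp.1.2⟩
  have h1 := hsv (Zp j j') (by
    intro p hp
    refine ⟨?_, ?_⟩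
    · unfold Zp
      exact card_le_two
    · intro c hc
      unfold Zp at hc
      rw [mem_insert, Finset.mem_singleton] at hc
      rcases hc with rfl | rfl
      · exact Nat.mod_lt _ (hPrp p hp).1.pos
      · exact Nat.mod_lt _ (hPrp p hp).1.pos) Q hQ α h q hα0 hq hc' hα hq1 hq2
  have h2 : ((Ioc N (2 * N)).filter (fun y : ℕ => (Q y + ⌊α * y⌋₊ + j).Prime ∧ (Q y + ⌊α * y⌋₊ + j').Prime)) ⊆
      ((Ioc N (2 * N)).filter (fun y : ℕ => ∀ p ∈ Pr z R, (Q y + ⌊α * y⌋₊) % p ∉ Zp j j' p)) := by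
    intro y hy
    rw [mem_filter] at hy ⊢
    refine ⟨hy.1, fun p hp hmem => ?_⟩
    obtain ⟨hpp, hpR⟩ := hPrp p hp
    have hQy := hQN y (mem_Ioc.1 hy.1).1
    unfold Zp at hmem
    rw [mem_insert, Finset.mem_singleton] at hmem
    rcases hmem with h3 | h3
    · have h4 := dvd_of_cls p hpp.pos _ _ h3
      have h5 := (Nat.prime_dvd_prime_iff_eq hpp hy.2.1).1 h4
      omega
    · have h4 := dvd_of_cls p hpp.pos _ _ h3
      have h5 := (Nat.prime_dvd_prime_iff_eq hpp hy.2.2).1 h4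
      omega
  have h3 : (((Ioc N (2 * N)).filter (fun y : ℕ => (Q y + ⌊α * y⌋₊ + j).Prime ∧ (Q y + ⌊α * y⌋₊ + j').Prime)).card : ℝ) ≤
      (((Ioc N (2 * N)).filter (fun y : ℕ => ∀ p ∈ Pr z R, (Q y + ⌊α * y⌋₊) % p ∉ Zp j j' p)).card : ℝ) := by
    exact_mod_cast card_le_card h2
  refine h3.trans (h1.trans ?_)
  obtain ⟨g, hg⟩ : ∃ g : ℝ, g = ((j' - j : ℕ) : ℝ) / (j' - j).totient := ⟨_, rfl⟩
  have hg1 : 1 ≤ g := by
    rw [hg, one_le_div (by exact_mod_cast Nat.totient_pos.2 (by omega))]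
    exact_mod_cast Nat.totient_le _
  have hV := VV_le z R j j' hj
  rw [← hg] at hV ⊢
  have hP := hm R hR2 hzR
  have hP0 : 0 ≤ ∏ p ∈ Pr z R, (1 - 1 / (p : ℝ)) := by
    apply prod_nonneg
    intro p hp
    have h2 : (2 : ℝ) ≤ p := by exact_mod_cast (hPrp p hp).1.two_le
    rw [sub_nonneg, div_le_one (by linarith)]
    linarith
  have hlR0 : 0 < Real.log R := lt_of_lt_of_le (by positivity) hlR
  have hP2 : ∏ p ∈ Pr z R, (1 - 1 / (p : ℝ)) ≤ c * A / Real.log N := by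
    refine hP.trans ?_
    have : c / Real.log R ≤ c / (Real.log N / A) := div_le_div_of_nonneg_left hc.le (by positivity) hlR
    refine this.trans (le_of_eq ?_)
    field_simp
  have hP3 : (∏ p ∈ Pr z R, (1 - 1 / (p : ℝ))) ^ 2 ≤ (c * A / Real.log N) ^ 2 := pow_le_pow_left₀ hP0 hP2 2
  have hV2 : VV (Zp j j') z R ≤ (c * A / Real.log N) ^ 2 * g :=
    hV.trans (mul_le_mul_of_nonneg_right hP3 (by linarith))
  have h4 : C * (N * VV (Zp j j') z R) ≤ C * (c * A) ^ 2 * g * (N / Real.log N ^ 2) := by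
    calc C * (N * VV (Zp j j') z R) ≤ C * (N * ((c * A / Real.log N) ^ 2 * g)) := by gcongr
      _ = _ := by
          field_simp
  have h5 : 50 * (N : ℝ) ^ (7 / 8 : ℝ) ≤ g * (N / Real.log N ^ 2) := by
    have h6 : 50 * (N : ℝ) ^ (7 / 8 : ℝ) ≤ N / Real.log N ^ 2 := by
      rw [le_div_iff₀ (by positivity)]
      have h4 : (N : ℝ) = (N : ℝ) ^ (7 / 8 : ℝ) * (N : ℝ) ^ (1 / 8 : ℝ) := by
        rw [← Real.rpow_add hN0]
        norm_num
      have h5 : 0 ≤ (N : ℝ) ^ (7 / 8 : ℝ) := by positivity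
      calc 50 * (N : ℝ) ^ (7 / 8 : ℝ) * Real.log N ^ 2 = (N : ℝ) ^ (7 / 8 : ℝ) * (50 * Real.log N ^ 2) := by ring
        _ ≤ (N : ℝ) ^ (7 / 8 : ℝ) * (N : ℝ) ^ (1 / 8 : ℝ) := mul_le_mul_of_nonneg_left b2 h5
        _ = N := h4.symm
    have h7 : 0 ≤ (N : ℝ) / Real.log N ^ 2 := by positivity
    nlinarith
  calc C * (N * VV (Zp j j') z R) + 50 * (N : ℝ) ^ (7 / 8 : ℝ) ≤
      C * (c * A) ^ 2 * g * (N / Real.log N ^ 2) + g * (N / Real.log N ^ 2) := add_le_add h4 h5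
    _ = _ := by ring

/-- the number of the `j ∈ [1, H]` with `v + j` prime -/
def wt (H v : ℕ) : ℕ := ((Icc 1 H).filter (fun j => (v + j).Prime)).card

theorem wt_sq (H v : ℕ) : (wt H v : ℝ) ^ 2 = ∑ j ∈ Icc 1 H, ∑ j' ∈ Icc 1 H,
    (if (v + j).Prime ∧ (v + j').Prime then (1 : ℝ) else 0) := by
  unfold wt
  rw [card_filter]
  push_cast
  rw [sq, sum_mul_sum]
  apply sum_congr rfl
  intro j _
  apply sum_congr rfl
  intro j' _
  by_cases h1 : (v + j).Prime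
  · by_cases h2 : (v + j').Prime
    · rw [if_pos h1, if_pos h2, if_pos ⟨h1, h2⟩, mul_one]
    · rw [if_neg h2, mul_zero, if_neg (fun h => h2 h.2)]
  · rw [if_neg h1, zero_mul, if_neg (fun h => h1 h.1)]

theorem sum_g (H j : ℕ) : ∑ j' ∈ Icc 1 H, (((j' - j : ℕ) : ℝ) / (j' - j).totient +
    ((j - j' : ℕ) : ℝ) / (j - j').totient) ≤ 4 * H + 4 * j := by
  classical
  obtain ⟨g, hg⟩ : ∃ g : ℕ → ℝ, g = fun k : ℕ => (k : ℝ) / k.totient := ⟨_, rfl⟩
  have hg0 : g 0 = 0 := by rw [hg]; simp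
  have hgn : ∀ k, 0 ≤ g k := by
    intro k
    rw [hg]
    positivity
  have hsum := Pool.Agent.N837.LP.sum_div_totient
  have h1 : ∑ j' ∈ Icc 1 H, g (j' - j) ≤ 4 * H := by
    have h2 : ∑ j' ∈ Icc 1 H, g (j' - j) = ∑ j' ∈ (Icc 1 H).filter (fun j' => j < j'), g (j' - j) := by
      rw [sum_filter]
      apply sum_congr rfl
      intro j' _
      split_ifs with h
      · rfl
      · have : j' - j = 0 := by omega
        rw [this, hg0]
    rw [h2, ← sum_image (g := fun j' => j' - j) (f := g) (by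
      intro a ha b hb hab
      rw [Finset.mem_coe, mem_filter] at ha hb
      simp only at hab
      omega)]
    refine le_trans (sum_le_sum_of_subset_of_nonneg ?_ fun k _ _ => hgn k) (by
      have := hsum H
      rw [hg]
      exact this)
    intro k hk
    rw [mem_image] at hk
    obtain ⟨j', hj', rfl⟩ := hk
    rw [mem_filter, mem_Icc] at hj'
    rw [mem_Icc]
    omega
  have h3 : ∑ j' ∈ Icc 1 H, g (j - j') ≤ 4 * j := by
    have h2 : ∑ j' ∈ Icc 1 H, g (j - j') = ∑ j' ∈ (Icc 1 H).filter (fun j' => j' < j), g (j - j') := by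
      rw [sum_filter]
      apply sum_congr rfl
      intro j' _
      split_ifs with h
      · rfl
      · have : j - j' = 0 := by omega
        rw [this, hg0]
    rw [h2, ← sum_image (g := fun j' => j - j') (f := g) (by
      intro a ha b hb hab
      rw [Finset.mem_coe, mem_filter] at ha hb
      simp only at hab
      omega)]
    refine le_trans (sum_le_sum_of_subset_of_nonneg ?_ fun k _ _ => hgn k) (by
      have := hsum j
      rw [hg]
      exact this)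
    intro k hk
    rw [mem_image] at hk
    obtain ⟨j', hj', rfl⟩ := hk
    rw [mem_filter, mem_Icc] at hj'
    rw [mem_Icc]
    omega
  rw [hg] at h1 h3
  rw [sum_add_distrib]
  exact add_le_add h1 h3

/-- **first and second moment over `y`** -/
theorem moments : ∃ C : ℝ, 1 ≤ C ∧ ∃ N₀ : ℕ, ∀ N : ℕ, N₀ ≤ N → ∀ Q : ℕ → ℕ,
    (∀ d r t : ℕ, Q (r + d * t) ≡ Q r [MOD d]) → (∀ y : ℕ, N < y → N ≤ Q y) →
    ∀ (α : ℝ) (h : ℤ) (q : ℕ), 0 ≤ α → 1 ≤ q → Int.gcd h q = 1 → |α - h / q| ≤ 1 / (q : ℝ) ^ 2 →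
      (N : ℝ) ^ (1 / 4 : ℝ) ≤ q → (q : ℝ) ≤ (N : ℝ) ^ (3 / 4 : ℝ) → ∀ H : ℕ,
      ∑ y ∈ Ioc N (2 * N), (wt H (Q y + ⌊α * y⌋₊) : ℝ) ≤ C * (H / Real.log N) * N ∧
      ∑ y ∈ Ioc N (2 * N), (wt H (Q y + ⌊α * y⌋₊) : ℝ) ^ 2 ≤
        C * (H / Real.log N + (H / Real.log N) ^ 2) * N := by
  classical
  obtain ⟨C₁, hC₁, N₁, h₁⟩ := Pool.Agent.P8H13.CL.point
  obtain ⟨C₂, hC₂, N₂, h₂⟩ := pair
  refine ⟨C₁ + 8 * C₂ + 1, by linarith, N₁ + N₂ + 3, fun N hN Q hQ hQN α h q hα0 hq hc hα hq1 hq2 H => ?_⟩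
  have hN3 : (3 : ℝ) ≤ N := by exact_mod_cast (by omega : 3 ≤ N)
  have hN0 : (0 : ℝ) < N := by linarith
  have hlN : 0 < Real.log N := Real.log_pos (by linarith)
  have hone : ∀ j : ℕ, (((Ioc N (2 * N)).filter (fun y : ℕ => (Q y + ⌊α * y⌋₊ + j).Prime)).card : ℝ) ≤
      C₁ * (N / Real.log N) := by
    intro j
    have h3 := h₁ N (by omega) (fun y => Q y + j) (fun d r t => (hQ d r t).add_right j)
      (fun y hy => (hQN y hy).trans (Nat.le_add_right _ _)) α h q hα0 hq hc hα hq1 hq2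
    have h4 : (Ioc N (2 * N)).filter (fun y : ℕ => ((Q y + j) + ⌊α * y⌋₊).Prime) =
        (Ioc N (2 * N)).filter (fun y : ℕ => (Q y + ⌊α * y⌋₊ + j).Prime) := by
      apply filter_congr
      intro y _
      have e : Q y + j + ⌊α * y⌋₊ = Q y + ⌊α * y⌋₊ + j := by ring
      rw [e]
    rw [h4] at h3
    exact h3
  constructor
  · have h3 : ∑ y ∈ Ioc N (2 * N), (wt H (Q y + ⌊α * y⌋₊) : ℝ) =
        ∑ j ∈ Icc 1 H, (((Ioc N (2 * N)).filter (fun y : ℕ => (Q y + ⌊α * y⌋₊ + j).Prime)).card : ℝ) := by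
      unfold wt
      simp only [card_filter]
      push_cast
      rw [sum_comm]
    rw [h3]
    refine (sum_le_sum fun j _ => hone j).trans ?_
    rw [sum_const, Nat.card_Icc, nsmul_eq_mul]
    have h4 : ((H + 1 - 1 : ℕ) : ℝ) = H := by simp
    rw [h4]
    have h5 : 0 ≤ (H : ℝ) / Real.log N * N := by positivity
    have h6 : (H : ℝ) * (C₁ * (N / Real.log N)) = C₁ * ((H : ℝ) / Real.log N * N) := by ring
    rw [h6]
    nlinarith
  · simp only [wt_sq]
    rw [sum_comm]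
    have h3 : ∀ j ∈ Icc 1 H, ∑ y ∈ Ioc N (2 * N), ∑ j' ∈ Icc 1 H,
        (if (Q y + ⌊α * y⌋₊ + j).Prime ∧ (Q y + ⌊α * y⌋₊ + j').Prime then (1 : ℝ) else 0) ≤
        C₁ * (N / Real.log N) + 8 * C₂ * H * (N / Real.log N ^ 2) := by
      intro j hj
      rw [mem_Icc] at hj
      rw [sum_comm]
      have h4 : ∀ j' ∈ Icc 1 H, ∑ y ∈ Ioc N (2 * N),
          (if (Q y + ⌊α * y⌋₊ + j).Prime ∧ (Q y + ⌊α * y⌋₊ + j').Prime then (1 : ℝ) else 0) ≤
          (if j = j' then C₁ * (N / Real.log N) else 0) +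
            C₂ * (((j' - j : ℕ) : ℝ) / (j' - j).totient + ((j - j' : ℕ) : ℝ) / (j - j').totient) *
              (N / Real.log N ^ 2) := by
        intro j' _
        have h5 : ∑ y ∈ Ioc N (2 * N),
          (if (Q y + ⌊α * y⌋₊ + j).Prime ∧ (Q y + ⌊α * y⌋₊ + j').Prime then (1 : ℝ) else 0) =
          (((Ioc N (2 * N)).filter (fun y : ℕ => (Q y + ⌊α * y⌋₊ + j).Prime ∧
            (Q y + ⌊α * y⌋₊ + j').Prime)).card : ℝ) := by
          rw [card_filter]
          push_cast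
          rfl
        rw [h5]
        rcases lt_trichotomy j j' with h6 | h6 | h6
        · rw [if_neg (by omega)]
          have h7 := h₂ N (by omega) Q hQ hQN α h q hα0 hq hc hα hq1 hq2 j j' h6
          have h8 : j - j' = 0 := by omega
          rw [h8]
          simpa using h7
        · subst h6
          rw [if_pos rfl]
          simp only [and_self, Nat.sub_self, CharP.cast_eq_zero, zero_div, add_zero, mul_zero, zero_mul]
          exact hone j
        · rw [if_neg (by omega)]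
          have h7 := h₂ N (by omega) Q hQ hQN α h q hα0 hq hc hα hq1 hq2 j' j h6
          have h8 : j' - j = 0 := by omega
          rw [h8]
          have h9 : (Ioc N (2 * N)).filter (fun y : ℕ => (Q y + ⌊α * y⌋₊ + j).Prime ∧ (Q y + ⌊α * y⌋₊ + j').Prime) =
              (Ioc N (2 * N)).filter (fun y : ℕ => (Q y + ⌊α * y⌋₊ + j').Prime ∧ (Q y + ⌊α * y⌋₊ + j).Prime) := by
            apply filter_congr
            intro y _
            exact and_comm
          rw [h9]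
          simpa using h7
      refine (sum_le_sum h4).trans ?_
      rw [sum_add_distrib, sum_ite_eq, if_pos (mem_Icc.2 hj), ← sum_mul, ← mul_sum]
      have h5 := sum_g H j
      have h6 : (j : ℝ) ≤ H := by exact_mod_cast hj.2
      have h7 : C₂ * ∑ j' ∈ Icc 1 H, (((j' - j : ℕ) : ℝ) / (j' - j).totient +
          ((j - j' : ℕ) : ℝ) / (j - j').totient) ≤ 8 * C₂ * H := by
        have h8 := mul_le_mul_of_nonneg_left h5 hC₂.le
        nlinarith
      have h8 : 0 ≤ (N : ℝ) / Real.log N ^ 2 := by positivity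
      have h9 := mul_le_mul_of_nonneg_right h7 h8
      linarith
    refine (sum_le_sum h3).trans ?_
    rw [sum_const, Nat.card_Icc, nsmul_eq_mul]
    have h4 : ((H + 1 - 1 : ℕ) : ℝ) = H := by simp
    rw [h4]
    have e1 : (H : ℝ) * (C₁ * (N / Real.log N) + 8 * C₂ * H * (N / Real.log N ^ 2)) =
        C₁ * ((H / Real.log N) * N) + 8 * C₂ * ((H / Real.log N) ^ 2 * N) := by
      field_simp
    rw [e1]
    have h5 : 0 ≤ (H : ℝ) / Real.log N * N := by positivity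
    have h6 : 0 ≤ ((H : ℝ) / Real.log N) ^ 2 * N := by positivity
    have e2 : (C₁ + 8 * C₂ + 1) * (H / Real.log N + (H / Real.log N) ^ 2) * N =
        (C₁ + 8 * C₂ + 1) * (H / Real.log N * N) + (C₁ + 8 * C₂ + 1) * ((H / Real.log N) ^ 2 * N) := by ring
    rw [e2]
    have h7 : C₁ * (H / Real.log N * N) ≤ (C₁ + 8 * C₂ + 1) * (H / Real.log N * N) :=
      mul_le_mul_of_nonneg_right (by linarith) h5
    have h8 : 8 * C₂ * ((H / Real.log N) ^ 2 * N) ≤ (C₁ + 8 * C₂ + 1) * ((H / Real.log N) ^ 2 * N) :=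
      mul_le_mul_of_nonneg_right (by linarith) h6
    linarith

end Pool.Agent.P8H13.NP
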